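import Pool.Agent.H728.SN.Mem

/-!
# Testing an upper bound for the spectral norm of a tensor is `∀ℝ`-complete

Sketch of the hardness proof. A bounded system of quadratic equations is homogenized with a variable
`x₀`, and a chain of variables `e₀ = x₀/8`, `e_{k+1} = e_k²/x₀` of linear length `K` is added, so
that every solution has a coordinate `e_K` which is positive but doubly exponentially small. Let
`g_1, …, g_m` be the homogeneous equations, as symmetric bilinear forms. There is a list of
bilinear forms `f_l` with small integer coefficients such that `∑ f_l(x, y)²` is equal to
`576 m² (2 |x|² |y|² + 2 (x · y)²) - m ∑ g_i(x, y)²`. Take `4096` copies of this list and the form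
`h(x, y) = e_K(x) y₀ + x₀ e_K(y)`. The slices of the tensor are these forms. So the square of the
spectral norm is the maximum of `4096 (576 m² (2 + 2 (x · y)²) - m ∑ g_i(x, y)²) + h(x, y)²`, and it
is larger than `(3072 m)²` if the system is satisfiable: take `x = y`. Conversely, if the value is
larger than `(3072 m)²` then `y` is close to `± x` and every `g_i(x, x)` is small compared with
`e_K`. In particular the chain equations are almost satisfied, and `e_K` is doubly exponentially
small; so all equations are satisfied with a doubly exponentially small error, and by the gap
theorem for bounded quadratic systems the original system is satisfiable.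
-/

namespace Pool.Agent.Results.MP_50cd9e_lc.SpectralNormComplete

open Pool.Agent.NPC Pool.Agent.NPC.ER Pool.Agent.H728.SN

/-- Spectral Norm Bound is `∀ℝ`-complete and Spectral Norm Exceed is `∃ℝ`-complete under
polynomial-time many-one reductions. -/
theorem result : ARComplete (lang NormBound) ∧ ERComplete (lang NormExceed) :=
  ⟨⟨Pool.Agent.NPC.H728SN.bound_mem, Pool.Agent.NPC.H728SN.bound_hard⟩,
    ⟨Pool.Agent.NPC.H728SN.exceed_mem, Pool.Agent.NPC.H728SN.exceed_hard⟩⟩

end Pool.Agent.Results.MP_50cd9e_lc.SpectralNormComplete
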